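import Pool.Agent.X246.DCP.Asy
import Pool.Agent.X246.DCP.Upp

/-!
# Learning DNF formulas: convex programming relaxations need size `n ^ Θ(log n)`

A learner for DNF formulas, in particular a weak or improper one, can be used to refute the claim
that random labels of random points are consistent with a DNF formula. The theorem is about
algorithms that refute it by mixed-integer convex programming relaxations: `2 ^ a` times the number
of convex constraints times their dimension has to be at least `n ^ ((1 - o(1)) log₂ n)` for DNF
formulas with `n` terms, also if the relaxation is randomized and is correct and useful only with the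
probability `n ^ (-C)`. For formulas of width `w` with at least `2 ^ (w - 1)` terms a linear program
with `(2 n + 1) ^ w` inequalities suffices, so that the size is `n ^ Θ(w)`.

The definitions used in the statement are in `Pool/Agent/X246/DCP/Par.lean` (`Dnf`, `Dnf.eval`),
`Pool/Agent/TH689/QXDefs.lean` (`Wrong`, `Rejects`, `rejectRate`) and
`Pool/Agent/TH689/GXDefs.lean` (`Scheme`, `CorrectAt`):

* `Dnf s w n`: the DNF formulas in `n` variables with at most `s` terms of at most `w` literals.
* `Wrong Dnf.eval e F`: the formula `F` gives the wrong label to the labelled example `e`.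
* `Scheme X 𝒞 a c r D`: the schemes of mixed-integer convex programming relaxations of the problem
  to find a hypothesis in `X` which agrees with a sample, with `a` binary variables, `c` convex
  constraints of dimension `D` which are common to all samples and `r` such constraints for every
  labelled example in `𝒞`. A constraint says that the value of an affine map to `ℝ ^ D` lies in an
  arbitrary convex set. There are any number of real variables and linear equations. Every
  hypothesis has a vector, about which nothing is assumed.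
* `P.CorrectAt Viol x`: the vector of `x` satisfies the common constraints, the constraints
  of the labelled examples with which `x` agrees, and its binary variables are `0` or `1`; so it is
  a solution of the relaxation of every sample with which `x` agrees.
* `rejectRate P Viol T δ`: the fraction of the samples with `T` labelled examples for which the
  relaxation claims, with an error `δ`, that no hypothesis agrees with them, which is the probability
  that random examples with random labels are rejected.
-/

set_option autoImplicit false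

namespace Pool.Agent.Results.MP_cba12a_lc.ConvexProgramsForDnf

open Finset Pool.Agent.TH689.GX Pool.Agent.TH689.QX Pool.Agent.X246.DCP

open scoped Classical

/-- (1) Let `l ≥ 1`, `2 ^ (l - 1) ≤ s`, `l ≤ w`, `l ≤ n`, `T ≥ 1` and `0 < δ < 1`. Let `P ω` be a
randomized scheme of relaxations for the DNF formulas with at most `s` terms of width at most `w`,
where `ω` has the probability `p ω`, with `2 ^ a * (c + (r + 1) * T + 1) * (D + 2) ≤ M`. Then for
some DNF formula `F` with at most `2 ^ (l - 1)` terms of at most `l` literals, the probability that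
the scheme is correct at `F` and that, independently, it rejects `T` random examples with random
labels is at most `2 * T ^ 3 * M / ((n / l) ^ l * δ ^ 2)`.

(2) For all `ε, C > 0` and all large `n`: for DNF formulas with at most `n` terms, `T ≤ n ^ C`,
`n ^ (-C) ≤ δ < 1` and `M = n ^ ((1 - ε) log₂ n)` the probability in (1) is at most `n ^ (-C)` for
some formula.

(3) Conversely there is one linear programming relaxation with at most `(2 n + 1) ^ w` inequalities
and one more for every labelled example, which is correct at all DNF formulas with at most `s` terms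
of width at most `w`, and which rejects `T` random examples with random labels with probability at
least `1 - 2 ^ (S - T)`, `S` the number of inequalities, with every error `δ < 1 / (1 + s T)`. -/
theorem result :
    (∀ n s w l T : ℕ, 1 ≤ l → 2 ^ (l - 1) ≤ s → l ≤ w → l ≤ n → 1 ≤ T →
      ∀ δ : ℝ, 0 < δ → δ < 1 →
      ∀ (Ω : Type) [Fintype Ω] (p : Ω → ℝ), (∀ ω, 0 ≤ p ω) → ∑ ω, p ω = 1 →
      ∀ (a c r D : Ω → ℕ) (M : ℝ),
        (∀ ω, (2 : ℝ) ^ a ω * (c ω + (r ω + 1) * T + 1) * (D ω + 2) ≤ M) →
      ∀ P : ∀ ω, Scheme (Dnf s w n) ((Fin n → Bool) × Bool) (a ω) (c ω) (r ω) (D ω),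
      ∃ F : Dnf s w n, F.1.card ≤ 2 ^ (l - 1) ∧ (∀ t ∈ F.1, t.card ≤ l) ∧
        ∑ ω, p ω * (if (P ω).CorrectAt (Wrong Dnf.eval) F then
          rejectRate (P ω) (Wrong Dnf.eval) T δ else 0) ≤
          2 * T ^ 3 * M / (((n / l : ℕ) : ℝ) ^ l * δ ^ 2)) ∧
    (∀ ε C : ℝ, 0 < ε → 0 < C → ∃ n₀ : ℕ, ∀ n : ℕ, n₀ ≤ n →
      ∀ (w T : ℕ), Nat.log 2 n + 1 ≤ w → 1 ≤ T → (T : ℝ) ≤ (n : ℝ) ^ C →
      ∀ δ : ℝ, (n : ℝ) ^ (-C) ≤ δ → δ < 1 →
      ∀ (Ω : Type) [Fintype Ω] (p : Ω → ℝ), (∀ ω, 0 ≤ p ω) → ∑ ω, p ω = 1 →
      ∀ (a c r D : Ω → ℕ),
        (∀ ω, (2 : ℝ) ^ a ω * (c ω + (r ω + 1) * T + 1) * (D ω + 2) ≤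
          (n : ℝ) ^ ((1 - ε) * Real.logb 2 n)) →
      ∀ P : ∀ ω, Scheme (Dnf n w n) ((Fin n → Bool) × Bool) (a ω) (c ω) (r ω) (D ω),
      ∃ F : Dnf n w n, ∑ ω, p ω * (if (P ω).CorrectAt (Wrong Dnf.eval) F then
        rejectRate (P ω) (Wrong Dnf.eval) T δ else 0) ≤ (n : ℝ) ^ (-C)) ∧
    ∀ s w n : ℕ, ∃ S : ℕ, S ≤ (2 * n + 1) ^ w ∧
      ∃ P : Scheme (Dnf s w n) ((Fin n → Bool) × Bool) 0 S 1 1,
        (∀ F, P.CorrectAt (Wrong Dnf.eval) F) ∧
        ∀ (T : ℕ) (δ : ℝ), 0 ≤ δ → (1 + s * T) * δ < 1 →
          1 - 2 ^ S / 2 ^ T ≤ rejectRate P (Wrong Dnf.eval) T δ := by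
  refine ⟨?_, ?_, ?_⟩
  · intro n s w l T hl hls hlw hln hT δ hδ0 hδ1 Ω _ p hp hp1 a c r D M hM P
    exact dnf_main hl hls hlw hln hT hδ0 hδ1 Ω p hp hp1 a c r D M hM P
  · exact dnf_asym
  · exact dnf_upper

end Pool.Agent.Results.MP_cba12a_lc.ConvexProgramsForDnf
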