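import Pool.Agent.X245.DFS.Upper
import Pool.Agent.H963J.Asym

/-!
# Learning DNF formulas: the dimension of feature spaces is `m ^ Θ(log s)`

The learners considered here compute from labelled examples a space of real functions of the `m`
attributes (a feature space) of dimension at most `D`, and then use any function of this space, for
example the best one. The space may depend in an arbitrary way on the attribute vectors of any number
`N` of examples and on internal randomness, and on the labels through one of `Q` messages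
(`FeatureLearner`, `Pool/Agent/X230/FS/Main.lean`). Examples are all kernel methods (the space is
spanned by the functions `K (x_i, ·)`, so `D ≤ N`, `Q = 1`), and networks whose hidden layers depend
on few bits of information about the labels. The function of the space may depend on all labels.

1. For every such learner there is a DNF formula with `2 ^ (k - 1)` terms (a parity of `k`
   variables), for which the expectation of the best squared correlation with a function in the
   space is at most `Q D / C(m, k)`, and the mean square error is at least `1 - Q D / C(m, k)`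
   (the error of the constant `0` is `1`).
2. Conversely, for all DNF formulas with less than `s` terms the fixed space of the polynomials of
   degree at most `log₂ (4 s)` contains a function with squared correlation at least `1 / (4 s)`.
3. For formulas with at most `m` gates: dimension `m ^ (log₂ m / 4)` is not sufficient, even for
   inverse polynomial correlation, and dimension `(m + 1) ^ (log₂ m + 2)` is sufficient.
-/

set_option autoImplicit false

namespace Pool.Agent.Results.MP_cba12a_lc.FeatureSpaces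

open Finset Pool.Agent.H963J Pool.Agent.X230.FS Pool.Agent.X249.LD Pool.Agent.X245.DFS

lemma pow_le_choose : ∀ k m : ℕ, k ≤ m → m ^ k ≤ k ^ k * m.choose k := by
  intro k
  induction k with
  | zero => intro d _; simp
  | succ m ih =>
    intro d hd
    obtain ⟨d, rfl⟩ : ∃ e, d = e + 1 := ⟨d - 1, by omega⟩
    have hmd : m ≤ d := by omega
    have h1 := ih d hmd
    rcases Nat.eq_zero_or_pos m with rfl | hm
    · simp
    have h2 : (d + 1) * m ≤ (m + 1) * d := by nlinarith
    have h3 : ((d + 1) * m) ^ m ≤ ((m + 1) * d) ^ m := Nat.pow_le_pow_left h2 m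
    have h4 : (d + 1) * d.choose m = (d + 1).choose (m + 1) * (m + 1) :=
      Nat.add_one_mul_choose_eq d m
    have hmm : 0 < m ^ m := by positivity
    apply Nat.le_of_mul_le_mul_left _ hmm
    calc m ^ m * (d + 1) ^ (m + 1) = (d + 1) * ((d + 1) * m) ^ m := by
          rw [mul_pow]; ring
      _ ≤ (d + 1) * ((m + 1) * d) ^ m := Nat.mul_le_mul_left _ h3
      _ = (m + 1) ^ m * ((d + 1) * d ^ m) := by rw [mul_pow]; ring
      _ ≤ (m + 1) ^ m * ((d + 1) * (m ^ m * d.choose m)) := by
          apply Nat.mul_le_mul_left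
          exact Nat.mul_le_mul_left _ h1
      _ = m ^ m * ((m + 1) ^ m * ((d + 1) * d.choose m)) := by ring
      _ = m ^ m * ((m + 1) ^ (m + 1) * (d + 1).choose (m + 1)) := by rw [h4]; ring

theorem choose_ge {m k : ℕ} (hm : 16 ≤ m) (hk : k = Nat.log 2 m) :
    (m : ℝ) ^ ((k : ℝ) / 2) ≤ (m.choose k : ℝ) := by
  have hm0 : (0 : ℝ) < m := by exact_mod_cast (by omega : 0 < m)
  have hkm2 : 2 ^ k ≤ m := by
    rw [hk]
    exact Nat.pow_log_le_self 2 (by omega)
  have hk4 : 4 ≤ k := by
    rw [hk]
    calc 4 = Nat.log 2 16 := by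
          rw [show (16 : ℕ) = 2 ^ 4 by norm_num, Nat.log_pow (by norm_num)]
      _ ≤ Nat.log 2 m := Nat.log_mono_right hm
  have hkk : ∀ j : ℕ, 4 ≤ j → j ^ 2 ≤ 2 ^ j := by
    intro j hj
    induction j, hj using Nat.le_induction with
    | base => norm_num
    | succ j hj ih =>
      rw [pow_succ 2 j]
      nlinarith
  have hk2 : k ^ 2 ≤ m := (hkk k hk4).trans hkm2
  have hkm : k ≤ m := by nlinarith
  have e1 : (m : ℝ) ^ k ≤ (k : ℝ) ^ k * (m.choose k : ℝ) := by
    exact_mod_cast pow_le_choose k m hkm
  have e2 : (k : ℝ) ^ k ≤ (m : ℝ) ^ ((k : ℝ) / 2) := by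
    have e3 : (k : ℝ) ≤ (m : ℝ) ^ ((1 : ℝ) / 2) := by
      have e4 : ((k : ℝ) ^ 2) ^ ((1 : ℝ) / 2) ≤ (m : ℝ) ^ ((1 : ℝ) / 2) :=
        Real.rpow_le_rpow (by positivity) (by exact_mod_cast hk2) (by norm_num)
      rwa [← Real.rpow_natCast, ← Real.rpow_mul (by positivity), Nat.cast_ofNat,
        mul_one_div_cancel (by norm_num), Real.rpow_one] at e4
    calc (k : ℝ) ^ k ≤ ((m : ℝ) ^ ((1 : ℝ) / 2)) ^ k :=
          pow_le_pow_left₀ (by positivity) e3 k
      _ = (m : ℝ) ^ ((k : ℝ) / 2) := by
          rw [← Real.rpow_natCast, ← Real.rpow_mul hm0.le]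
          congr 1
          ring
  have e5 : (m : ℝ) ^ ((k : ℝ) / 2) * (m : ℝ) ^ ((k : ℝ) / 2) = (m : ℝ) ^ k := by
    rw [← Real.rpow_add hm0, ← Real.rpow_natCast]
    congr 1
    ring
  have e6 : 0 < (m : ℝ) ^ ((k : ℝ) / 2) := by positivity
  have e7 : (m : ℝ) ^ ((k : ℝ) / 2) * (m : ℝ) ^ ((k : ℝ) / 2) ≤
      (m : ℝ) ^ ((k : ℝ) / 2) * (m.choose k : ℝ) := by
    rw [e5]
    exact e1.trans (mul_le_mul_of_nonneg_right e2 (by positivity))
  exact le_of_mul_le_mul_left e7 e6

/-- the expected mean square error of the predictions `p` for the target `f` -/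
noncomputable def msError {m N D Q : ℕ} (L : FeatureLearner m N D Q)
    (p : L.Ω → (Fin N → Fin m → Bool) → (Fin N → Bool) → (Fin m → Bool) → ℝ)
    (f : (Fin m → Bool) → Bool) : ℝ :=
  letI := L.fin
  ∑ ω, L.prob ω * ((∑ X : Fin N → Fin m → Bool,
    (∑ x, (sg (f x) - p ω X (lab f X) x) ^ 2) / 2 ^ m) / 2 ^ (N * m))

theorem msError_ge {m N D Q : ℕ} (L : FeatureLearner m N D Q)
    (p : L.Ω → (Fin N → Fin m → Bool) → (Fin N → Bool) → (Fin m → Bool) → ℝ)
    (hp : ∀ ω X y, p ω X y ∈ L.space ω X (L.info ω X y)) (f : (Fin m → Bool) → Bool) :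
    1 - valueAt L f ≤ msError L p f := by
  letI := L.fin
  unfold msError valueAt
  have h1 : (1 : ℝ) = ∑ ω, L.prob ω * ((∑ _X : Fin N → Fin m → Bool, (1 : ℝ)) / 2 ^ (N * m)) := by
    rw [← Finset.sum_mul, L.prob_sum, one_mul, Finset.sum_const, Finset.card_univ,
      Fintype.card_fun, Fintype.card_fun, Fintype.card_bool, Fintype.card_fin, Fintype.card_fin,
      ← pow_mul, mul_comm m N, nsmul_eq_mul, mul_one]
    push_cast
    rw [div_self (by positivity)]
  rw [h1, ← Finset.sum_sub_distrib]
  refine Finset.sum_le_sum fun ω _ => ?_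
  rw [← mul_sub, ← sub_div, ← Finset.sum_sub_distrib]
  refine mul_le_mul_of_nonneg_left ?_ (L.prob_nonneg ω)
  refine div_le_div_of_nonneg_right ?_ (by positivity)
  exact Finset.sum_le_sum fun X _ => mse_ge (hp ω X (lab f X)) f

theorem IsDNF.mono {m s s' : ℕ} {f : (Fin m → Bool) → Bool} (h : IsDNF s f) (hs : s ≤ s') :
    IsDNF s' f := by
  obtain ⟨F, hF, hf⟩ := h
  exact ⟨F, hF.trans hs, hf⟩

/-- (1) Let `1 ≤ k ≤ m`. For every learner `L` which computes a feature space of dimension at most `D`
from `N` uniform examples, using the labels only through one of `Q` messages, there is a DNF formula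
`f` with at most `2 ^ (k - 1)` terms for which the expectation of the best squared correlation of a
function in the space with `f` is at most `Q D / C(m, k)`, this correlation is at least `r` with
probability at most `Q D / (r C(m, k))`, and the mean square error is at least `1 - Q D / C(m, k)`
for every choice `p` of a function in the space, which may depend on all labels.

(2) The space of the polynomials of degree at most `w = ⌊log₂ (4 s)⌋` in the `±1`-valued attributes has
dimension at most `∑_{j ≤ w} C(m, j)` and contains for every DNF formula with at most `s` gates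
(less than `s` terms) a function with squared correlation at least `1 / (4 s)`.

(3) Let `m ≥ 16` and `k = ⌊log₂ m⌋`. If `Q D ≤ m ^ (k / 4)` then for every such learner there is a DNF
formula with at most `m` gates for which the expectation in (1) is at most `m ^ (- k / 4)`, the
probability at most `m ^ (- k / 4) / r` and the mean square error at least `1 - m ^ (- k / 4)`. The
dimension in (2) for `s = m` is at most `(m + 1) ^ (k + 2)`. -/
theorem result :
    (∀ m k N D Q : ℕ, 1 ≤ k → k ≤ m → ∀ L : FeatureLearner m N D Q,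
      ∃ f : (Fin m → Bool) → Bool, IsDNF (2 ^ (k - 1) + 1) f ∧
        valueAt L f ≤ Q * D / m.choose k ∧
        (∀ r : ℝ, 0 < r → successAt L r f ≤ Q * D / m.choose k / r) ∧
        ∀ p : L.Ω → (Fin N → Fin m → Bool) → (Fin N → Bool) → (Fin m → Bool) → ℝ,
          (∀ ω X y, p ω X y ∈ L.space ω X (L.info ω X y)) →
          1 - Q * D / m.choose k ≤ msError L p f) ∧
    (∀ m s : ℕ, 1 ≤ s →
      Module.finrank ℝ (lowSpace m (Nat.log 2 (4 * s))) ≤ low m (Nat.log 2 (4 * s)) ∧
      ∀ f : (Fin m → Bool) → Bool, IsDNF s f →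
        1 / (4 * s : ℝ) ≤ fit (lowSpace m (Nat.log 2 (4 * s))) f) ∧
    (∀ m k N D Q : ℕ, 16 ≤ m → k = Nat.log 2 m → (Q * D : ℝ) ≤ (m : ℝ) ^ ((k : ℝ) / 4) →
      (∀ L : FeatureLearner m N D Q,
        ∃ f : (Fin m → Bool) → Bool, IsDNF m f ∧
          valueAt L f ≤ (m : ℝ) ^ (-((k : ℝ) / 4)) ∧
          (∀ r : ℝ, 0 < r → successAt L r f ≤ (m : ℝ) ^ (-((k : ℝ) / 4)) / r) ∧
          ∀ p : L.Ω → (Fin N → Fin m → Bool) → (Fin N → Bool) → (Fin m → Bool) → ℝ,
            (∀ ω X y, p ω X y ∈ L.space ω X (L.info ω X y)) →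
            1 - (m : ℝ) ^ (-((k : ℝ) / 4)) ≤ msError L p f) ∧
      low m (Nat.log 2 (4 * m)) ≤ (m + 1) ^ (k + 2)) := by
  have h1 : ∀ m k N D Q : ℕ, 1 ≤ k → k ≤ m → ∀ L : FeatureLearner m N D Q,
      ∃ f : (Fin m → Bool) → Bool, IsDNF (2 ^ (k - 1) + 1) f ∧
        valueAt L f ≤ Q * D / m.choose k ∧
        (∀ r : ℝ, 0 < r → successAt L r f ≤ Q * D / m.choose k / r) ∧
        ∀ p : L.Ω → (Fin N → Fin m → Bool) → (Fin N → Bool) → (Fin m → Bool) → ℝ,
          (∀ ω X y, p ω X y ∈ L.space ω X (L.info ω X y)) →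
          1 - Q * D / m.choose k ≤ msError L p f := by
    intro m k N D Q hk hkm L
    obtain ⟨S, hS, hv⟩ := exists_bad k hkm L
    refine ⟨par S, ?_, hv, fun r hr => ?_, fun p hp => ?_⟩
    · have := isDNF_par S (by omega)
      rwa [hS] at this
    · exact (success_le L hr (par S)).trans (div_le_div_of_nonneg_right hv hr.le)
    · have := msError_ge L p hp (par S)
      linarith
  refine ⟨h1, fun m s hs => ⟨finrank_lowSpace _ _, fun f hf => dnf_fit hs hf⟩, ?_⟩
  intro m k N D Q hm hk hQD
  have hm0 : (0 : ℝ) < m := by exact_mod_cast (by omega : 0 < m)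
  have hkm2 : 2 ^ k ≤ m := by
    rw [hk]
    exact Nat.pow_log_le_self 2 (by omega)
  have hk4 : 4 ≤ k := by
    rw [hk]
    calc 4 = Nat.log 2 16 := by
          rw [show (16 : ℕ) = 2 ^ 4 by norm_num, Nat.log_pow (by norm_num)]
      _ ≤ Nat.log 2 m := Nat.log_mono_right hm
  have hkm : k ≤ m := Nat.lt_two_pow_self.le.trans hkm2
  refine ⟨fun L => ?_, ?_⟩
  · obtain ⟨f, hf1, hf2, hf3, hf4⟩ := h1 m k N D Q (by omega) hkm L
    have hbd : (Q * D : ℝ) / m.choose k ≤ (m : ℝ) ^ (-((k : ℝ) / 4)) := by
      have hc := choose_ge hm hk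
      have h3 : 0 < (m : ℝ) ^ ((k : ℝ) / 2) := by positivity
      rw [div_le_iff₀ (lt_of_lt_of_le h3 hc)]
      calc (Q * D : ℝ) ≤ (m : ℝ) ^ ((k : ℝ) / 4) := hQD
        _ = (m : ℝ) ^ (-((k : ℝ) / 4)) * (m : ℝ) ^ ((k : ℝ) / 2) := by
            rw [← Real.rpow_add hm0]
            congr 1
            ring
        _ ≤ _ := mul_le_mul_of_nonneg_left hc (by positivity)
    refine ⟨f, IsDNF.mono hf1 ?_, hf2.trans hbd, fun r hr => ?_, fun p hp => ?_⟩
    · have h5 : 2 ^ k = 2 * 2 ^ (k - 1) := by
        rw [← pow_succ']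
        congr 1
        omega
      have h6 : 0 < 2 ^ (k - 1) := by positivity
      omega
    · exact (hf3 r hr).trans (div_le_div_of_nonneg_right hbd hr.le)
    · have := hf4 p hp
      linarith
  · have hlog : Nat.log 2 (4 * m) = k + 2 := by
      rw [hk, show 4 * m = m * 2 * 2 by ring, Nat.log_mul_base (by norm_num) (by omega),
        Nat.log_mul_base (by norm_num) (by omega)]
    rw [hlog, ← card_low]
    exact card_smallSets m (k + 2)

end Pool.Agent.Results.MP_cba12a_lc.FeatureSpaces
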