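import Mathlib
import Pool.Agent.H963J.Asym
import Pool.Agent.X249.LD.Up

/-!
# Learning DNF formulas: statistics of `o(log n)` labels do not suffice (MP_cba12a_lc)

Question Q1 for predictors and learners that use the attribute vectors of the examples in an
arbitrary way, but whose predictions are (in mean square approximately) polynomials of degree `D` in
the `±1`-valued labels, that is, sums of functions of at most `D` labels, with any number of terms
and any real coefficients. The exact threshold for parities of `k` variables: the number of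
sets of at most `D` examples has to be about `C(m, k)`.
-/

set_option autoImplicit false

namespace Pool.Agent.Results.MP_cba12a_lc.LabelDegree

open Finset Pool.Agent.H963J Pool.Agent.X249.LD

noncomputable section

lemma pow_le_choose : ∀ k m : ℕ, k ≤ m → m ^ k ≤ k ^ k * m.choose k := by
  intro k
  induction k with
  | zero => intro d _; simp
  | succ m ih =>
    intro d hd
    obtain ⟨d, rfl⟩ : ∃ e, d = e + 1 := ⟨d - 1, by omega⟩
    have hmd : m ≤ d := by omega
    have h1 := ih d hmd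
    rcases Nat.eq_zero_or_pos m with rfl | hm
    · simp
    have h2 : (d + 1) * m ≤ (m + 1) * d := by nlinarith
    have h3 : ((d + 1) * m) ^ m ≤ ((m + 1) * d) ^ m := Nat.pow_le_pow_left h2 m
    have h4 : (d + 1) * d.choose m = (d + 1).choose (m + 1) * (m + 1) :=
      Nat.add_one_mul_choose_eq d m
    have hmm : 0 < m ^ m := by positivity
    apply Nat.le_of_mul_le_mul_left _ hmm
    calc m ^ m * (d + 1) ^ (m + 1) = (d + 1) * ((d + 1) * m) ^ m := by
          rw [mul_pow]; ring
      _ ≤ (d + 1) * ((m + 1) * d) ^ m := Nat.mul_le_mul_left _ h3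
      _ = (m + 1) ^ m * ((d + 1) * d ^ m) := by rw [mul_pow]; ring
      _ ≤ (m + 1) ^ m * ((d + 1) * (m ^ m * d.choose m)) := by
          apply Nat.mul_le_mul_left
          exact Nat.mul_le_mul_left _ h1
      _ = m ^ m * ((m + 1) ^ m * ((d + 1) * d.choose m)) := by ring
      _ = m ^ m * ((m + 1) ^ (m + 1) * (d + 1).choose (m + 1)) := by rw [h4]; ring

lemma ratio {C m N D : ℕ} (hm : 16 ≤ m) (hN : N ≤ m ^ C) (hD : 4 * (C + 1) * D ≤ Nat.log 2 m) :
    (low N D : ℝ) / (m.choose (Nat.log 2 m) : ℝ) ≤ (m : ℝ) ^ (-((Nat.log 2 m : ℝ) / 4)) := by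
  obtain ⟨k, hk⟩ : ∃ k : ℕ, k = Nat.log 2 m := ⟨_, rfl⟩
  rw [← hk] at hD ⊢
  have hm0 : (0 : ℝ) < m := by
    have : 0 < m := by omega
    exact_mod_cast this
  have hm1 : (1 : ℝ) ≤ m := by
    have : 1 ≤ m := by omega
    exact_mod_cast this
  have hkm2 : 2 ^ k ≤ m := by
    rw [hk]
    exact Nat.pow_log_le_self 2 (by omega)
  have hk4 : 4 ≤ k := by
    rw [hk]
    calc 4 = Nat.log 2 16 := by
          rw [show (16 : ℕ) = 2 ^ 4 by norm_num, Nat.log_pow (by norm_num)]
      _ ≤ Nat.log 2 m := Nat.log_mono_right hm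
  have hkk : ∀ j : ℕ, 4 ≤ j → j ^ 2 ≤ 2 ^ j := by
    intro j hj
    induction j, hj using Nat.le_induction with
    | base => norm_num
    | succ j hj ih =>
      rw [pow_succ 2 j]
      nlinarith
  have hk2 : k ^ 2 ≤ m := (hkk k hk4).trans hkm2
  have hkm : k ≤ m := by nlinarith
  have h1 : (low N D : ℝ) ≤ (m : ℝ) ^ ((k : ℝ) / 4) := by
    have e1 : low N D ≤ (N + 1) ^ D := by
      rw [← card_low]
      exact card_smallSets N D
    have e2 : N + 1 ≤ m ^ (C + 1) := by
      calc N + 1 ≤ m ^ C + m ^ C := by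
            have : 1 ≤ m ^ C := Nat.one_le_pow _ _ (by omega)
            omega
        _ = m ^ C * 2 := by ring
        _ ≤ m ^ C * m := Nat.mul_le_mul_left _ (by omega)
        _ = m ^ (C + 1) := (pow_succ _ _).symm
    have e3 : low N D ≤ m ^ ((C + 1) * D) := by
      calc low N D ≤ (N + 1) ^ D := e1
        _ ≤ (m ^ (C + 1)) ^ D := Nat.pow_le_pow_left e2 D
        _ = _ := (pow_mul _ _ _).symm
    calc (low N D : ℝ) ≤ ((m ^ ((C + 1) * D) : ℕ) : ℝ) := by exact_mod_cast e3
      _ = (m : ℝ) ^ (((C + 1) * D : ℕ) : ℝ) := by rw [Real.rpow_natCast]; push_cast; rfl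
      _ ≤ _ := by
          apply Real.rpow_le_rpow_of_exponent_le hm1
          have : (4 : ℝ) * (((C + 1) * D : ℕ) : ℝ) ≤ k := by
            have h : 4 * ((C + 1) * D) ≤ k := by
              calc 4 * ((C + 1) * D) = 4 * (C + 1) * D := by ring
                _ ≤ k := hD
            exact_mod_cast h
          linarith
  have h2 : (m : ℝ) ^ ((k : ℝ) / 2) ≤ (m.choose k : ℝ) := by
    have e1 : (m : ℝ) ^ k ≤ (k : ℝ) ^ k * (m.choose k : ℝ) := by
      exact_mod_cast pow_le_choose k m hkm
    have e2 : (k : ℝ) ^ k ≤ (m : ℝ) ^ ((k : ℝ) / 2) := by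
      have e3 : (k : ℝ) ≤ (m : ℝ) ^ ((1 : ℝ) / 2) := by
        have e4 : ((k : ℝ) ^ 2) ^ ((1 : ℝ) / 2) ≤ (m : ℝ) ^ ((1 : ℝ) / 2) :=
          Real.rpow_le_rpow (by positivity) (by exact_mod_cast hk2) (by norm_num)
        rwa [← Real.rpow_natCast, ← Real.rpow_mul (by positivity), Nat.cast_ofNat,
          mul_one_div_cancel (by norm_num), Real.rpow_one] at e4
      calc (k : ℝ) ^ k ≤ ((m : ℝ) ^ ((1 : ℝ) / 2)) ^ k :=
            pow_le_pow_left₀ (by positivity) e3 k
        _ = (m : ℝ) ^ ((k : ℝ) / 2) := by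
            rw [← Real.rpow_natCast, ← Real.rpow_mul hm0.le]
            congr 1
            ring
    have e5 : (m : ℝ) ^ ((k : ℝ) / 2) * (m : ℝ) ^ ((k : ℝ) / 2) = (m : ℝ) ^ k := by
      rw [← Real.rpow_add hm0, ← Real.rpow_natCast]
      congr 1
      ring
    have e6 : 0 < (m : ℝ) ^ ((k : ℝ) / 2) := by positivity
    have e7 : (m : ℝ) ^ ((k : ℝ) / 2) * (m : ℝ) ^ ((k : ℝ) / 2) ≤
        (m : ℝ) ^ ((k : ℝ) / 2) * (m.choose k : ℝ) := by
      rw [e5]
      exact e1.trans (mul_le_mul_of_nonneg_right e2 (by positivity))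
    exact le_of_mul_le_mul_left e7 e6
  have h3 : 0 < (m : ℝ) ^ ((k : ℝ) / 2) := by positivity
  rw [div_le_iff₀ (lt_of_lt_of_le h3 h2)]
  calc (low N D : ℝ) ≤ (m : ℝ) ^ ((k : ℝ) / 4) := h1
    _ = (m : ℝ) ^ (-((k : ℝ) / 4)) * (m : ℝ) ^ ((k : ℝ) / 2) := by
        rw [← Real.rpow_add hm0]
        congr 1
        ring
    _ ≤ _ := mul_le_mul_of_nonneg_left h2 (by positivity)

/-- The functions `p X y x` are predictions of the `±1`-valued target at the point `x` from the
examples with the attribute vectors `X` and the labels `y`; they are polynomials of degree at most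
`D` in the `±1`-valued labels, for all `X` and `x`. The parities `par S` of `k ≥ 1` variables
are DNF formulas with `2 ^ (k - 1) + 1` gates. `low N D` is the number of sets of at most `D` of `N`
examples.

1. For all attribute vectors `X` of the examples, also for chosen ones, the average of the mean
square error of `p` over the `C(m, k)` parities of `k` variables is at least
`1 - low N D / C(m, k)`.

2. If the mean hypothesis of a randomized learner, an arbitrary function, has for uniform examples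
on average over these parities a mean square distance of at most `ζ` from `p`, then the average
error of the learner is at least `1 / 2 - (√ζ + (1 + √ζ) √(low N D / C(m, k))) / 2`.

3. If `1 ≤ D ≤ N` then some `p` has the mean square error `(C(m, k) - 1) / C(N, D)` for uniform
examples of every parity of `k` variables.

4. Let `m ≥ 16`, `N ≤ m ^ C`, `D ≤ log₂ m / (4 (C + 1))` and `k = ⌊log₂ m⌋`. Then the parities of `k`
variables are DNF formulas with at most `m` gates, the lower bound in 1 is at least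
`1 - m ^ (- k / 4)`, and the lower bound in 2 is at least
`1 / 2 - (√ζ + (1 + √ζ) m ^ (- k / 8)) / 2`. -/
theorem result :
    (∀ m k N D : ℕ, k ≤ m →
      ∀ p : (Fin N → Fin m → Bool) → (Fin N → Bool) → (Fin m → Bool) → ℝ,
      (∀ X x, LabelDegree D fun y => p X y x) →
      (∀ X : Fin N → Fin m → Bool, 1 - (low N D : ℝ) / (m.choose k : ℝ) ≤
        (∑ S ∈ powersetCard k (univ : Finset (Fin m)), errAt p X (par S)) / (m.choose k : ℝ)) ∧
      ∀ (L : Learner m N) (ζ : ℝ), 0 ≤ ζ →
        (∑ S ∈ powersetCard k (univ : Finset (Fin m)), L.dist p (par S)) / (m.choose k : ℝ) ≤ ζ →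
        1 / 2 - (Real.sqrt ζ + (1 + Real.sqrt ζ) *
          Real.sqrt ((low N D : ℝ) / (m.choose k : ℝ))) / 2 ≤
        (∑ S ∈ powersetCard k (univ : Finset (Fin m)), L.error (par S)) / (m.choose k : ℝ)) ∧
    (∀ m k N D : ℕ, 1 ≤ D → D ≤ N →
      ∃ p : (Fin N → Fin m → Bool) → (Fin N → Bool) → (Fin m → Bool) → ℝ,
        (∀ X x, LabelDegree D fun y => p X y x) ∧
        ∀ S : Finset (Fin m), S.card = k →
          err p (par S) = ((m.choose k : ℝ) - 1) / (N.choose D : ℝ)) ∧
    ∀ C m N D k : ℕ, 16 ≤ m → N ≤ m ^ C → 4 * (C + 1) * D ≤ Nat.log 2 m → k = Nat.log 2 m →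
      (∀ S : Finset (Fin m), S.card = k → IsDNF m (par S)) ∧
      ∀ p : (Fin N → Fin m → Bool) → (Fin N → Bool) → (Fin m → Bool) → ℝ,
      (∀ X x, LabelDegree D fun y => p X y x) →
      (∀ X : Fin N → Fin m → Bool, 1 - (m : ℝ) ^ (-((k : ℝ) / 4)) ≤
        (∑ S ∈ powersetCard k (univ : Finset (Fin m)), errAt p X (par S)) / (m.choose k : ℝ)) ∧
      ∀ (L : Learner m N) (ζ : ℝ), 0 ≤ ζ →
        (∑ S ∈ powersetCard k (univ : Finset (Fin m)), L.dist p (par S)) / (m.choose k : ℝ) ≤ ζ →
        1 / 2 - (Real.sqrt ζ + (1 + Real.sqrt ζ) * (m : ℝ) ^ (-((k : ℝ) / 8))) / 2 ≤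
        (∑ S ∈ powersetCard k (univ : Finset (Fin m)), L.error (par S)) / (m.choose k : ℝ) := by
  have hlow : ∀ m k N D : ℕ, k ≤ m →
      ∀ p : (Fin N → Fin m → Bool) → (Fin N → Bool) → (Fin m → Bool) → ℝ,
      (∀ X x, LabelDegree D fun y => p X y x) →
      ∀ X : Fin N → Fin m → Bool, 1 - (low N D : ℝ) / (m.choose k : ℝ) ≤
        (∑ S ∈ powersetCard k (univ : Finset (Fin m)), errAt p X (par S)) / (m.choose k : ℝ) := by
    intro m k N D hkm p hp X
    have hK : (0 : ℝ) < (m.choose k : ℝ) := by exact_mod_cast Nat.choose_pos hkm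
    rw [le_div_iff₀ hK, sub_mul, one_mul, div_mul_cancel₀ _ hK.ne']
    exact lower p X (hp X)
  refine ⟨fun m k N D hkm p hp => ⟨hlow m k N D hkm p hp,
    fun L ζ hζ0 hζ => learner hkm L p hp ζ hζ0 hζ⟩,
    fun m k N D hD hDN => ⟨pred m k N D, fun X x => pred_degree m k N D X x,
      fun S hS => pred_err hD hDN S (mem_powersetCard.2 ⟨subset_univ _, hS⟩)⟩, ?_⟩
  intro C m N D k hm hN hD hk
  have hr := ratio hm hN hD
  rw [← hk] at hr
  have hkm2 : 2 ^ k ≤ m := by
    rw [hk]
    exact Nat.pow_log_le_self 2 (by omega)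
  have hkm : k ≤ m := (Nat.lt_two_pow_self).le.trans hkm2
  have hk1 : 1 ≤ k := by
    rw [hk]
    exact Nat.log_pos (by norm_num) (by omega)
  have hm0 : (0 : ℝ) < m := by
    have : 0 < m := by omega
    exact_mod_cast this
  refine ⟨?_, fun p hp => ⟨?_, ?_⟩⟩
  · intro S hS
    obtain ⟨F, hF1, hF2⟩ := isDNF_par S (by rw [hS]; exact hk1)
    refine ⟨F, hF1.trans ?_, hF2⟩
    rw [hS]
    have : 2 ^ k = 2 * 2 ^ (k - 1) := by
      rw [← pow_succ']
      congr 1
      omega
    have h2 : 1 ≤ 2 ^ (k - 1) := Nat.one_le_two_pow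
    omega
  · intro X
    have := hlow m k N D hkm p hp X
    linarith
  · intro L ζ hζ0 hζ
    have h1 := learner hkm L p hp ζ hζ0 hζ
    have h2 : Real.sqrt ((low N D : ℝ) / (m.choose k : ℝ)) ≤ (m : ℝ) ^ (-((k : ℝ) / 8)) := by
      rw [Real.sqrt_le_left (by positivity)]
      refine hr.trans (le_of_eq ?_)
      rw [← Real.rpow_natCast, ← Real.rpow_mul hm0.le]
      congr 1
      push_cast
      ring
    have h3 : (1 + Real.sqrt ζ) * Real.sqrt ((low N D : ℝ) / (m.choose k : ℝ)) ≤
        (1 + Real.sqrt ζ) * (m : ℝ) ^ (-((k : ℝ) / 8)) :=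
      mul_le_mul_of_nonneg_left h2 (by positivity)
    linarith

end

end Pool.Agent.Results.MP_cba12a_lc.LabelDegree
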