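import Pool.Agent.X246.DLD.Asy

/-!
# Low-degree learners do not learn DNF formulas, even weakly

Learners whose output distribution is close, in the mean, to real polynomials of degree `D` in all
bits of the `N` labelled examples, or of degree `d` in the labels with coefficients which are
arbitrary functions of the attributes. For DNF formulas with `m` terms in `m` variables and
`N = m ^ O(1)` uniform random examples they fail, even weakly, if `D = o(log² m)`, or `d = o(log m)`.

Definitions used in the statement: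

* `Dnf s w m`, `Dnf.eval` (`Pool/Agent/X246/DCP/Par.lean`): DNF formulas in `m` variables with at
  most `s` terms of at most `w` literals.
* `Sample`, `sample`, `mean`, `nullMean`, `PolyInBits`, `PolyInLabels`
  (`Pool/Agent/TH440/LD/Main.lean`): tables of labelled examples, the mean over random examples of a
  target, the mean over random attributes with random labels, the two classes of polynomials.
* `HLearner`, `err`, `success` (`Pool/Agent/X246/DLD/Core.lean`), `Fails`
  (`Pool/Agent/X246/DLD/Asy.lean`).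
-/

set_option autoImplicit false

namespace Pool.Agent.Results.MP_cba12a_lc.LowDegreeLearners

open Finset Pool.Agent.TH440.LD Pool.Agent.X246.DLD Pool.Agent.X246.DCP

/-- (1), (2) Let `1 ≤ k ≤ m`, `2 ^ (k - 1) ≤ s`, `k ≤ w` and `γ > 0`. From any number `N` of uniform
examples, learners whose output distribution is approximated in the mean

1. by real polynomials of degree `D` in all bits of the sample,
2. by real polynomials of degree `d` in the labels,

fail (`Fails`) to output with probability more than `B` (up to the quality of the approximation) a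
hypothesis of error at most `1 / 2 - γ` for all DNF formulas with at most `s` terms of at most `w`
literals, where `B` is `exp (1 + D / (k + 1) * log ((N + 1) 2 ^ k)) / (4 γ² ⌊m / k⌋ ^ k)` and
`exp (1 + d * log (N + 1)) / (4 γ² ⌊m / k⌋ ^ k)`, respectively.

(3) For every `C > 0` and all large `m` they fail for DNF formulas with at most `m` terms, with
`γ = B = m ^ (-C)`, if `D (log (N + 1) + log m) ≤ (log m)³ / 8`, or `d log (N + 1) ≤ (log m)² / 8`. -/
theorem result :
    (∀ m k s w N D : ℕ, 1 ≤ k → k ≤ m → 2 ^ (k - 1) ≤ s → k ≤ w → ∀ γ : ℝ, 0 < γ →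
      Fails m s w N (PolyInBits D) γ (Real.exp (1 + D / (k + 1) *
        Real.log (((N : ℝ) + 1) * 2 ^ k)) / (4 * γ ^ 2 * ((m / k : ℕ) : ℝ) ^ k))) ∧
    (∀ m k s w N d : ℕ, 1 ≤ k → k ≤ m → 2 ^ (k - 1) ≤ s → k ≤ w → ∀ γ : ℝ, 0 < γ →
      Fails m s w N (PolyInLabels d) γ (Real.exp (1 + d * Real.log ((N : ℝ) + 1)) /
        (4 * γ ^ 2 * ((m / k : ℕ) : ℝ) ^ k))) ∧
    (∀ C : ℝ, 0 < C → ∃ m₀ : ℕ, ∀ m : ℕ, m₀ ≤ m → ∀ w N : ℕ, Nat.log 2 m + 1 ≤ w →
      (∀ D : ℕ, D * (Real.log (N + 1) + Real.log m) ≤ 1 / 8 * Real.log m ^ 3 →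
        Fails m m w N (PolyInBits D) ((m : ℝ) ^ (-C)) ((m : ℝ) ^ (-C))) ∧
      (∀ d : ℕ, d * Real.log (N + 1) ≤ 1 / 8 * Real.log m ^ 2 →
        Fails m m w N (PolyInLabels d) ((m : ℝ) ^ (-C)) ((m : ℝ) ^ (-C)))) :=
  ⟨fun _ _ _ _ _ _ hk hkm hs hw _ hγ => bits_part hk hkm hs hw hγ,
    fun _ _ _ _ _ _ hk hkm hs hw _ hγ => labels_part hk hkm hs hw hγ, asym⟩

end Pool.Agent.Results.MP_cba12a_lc.LowDegreeLearners
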